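import Pool.Agent.H.MP_215299_an.CC.QF
import Pool.Agent.H.MP_215299_an.CC.QG

/-!
MP_215299_an: close-to-convex functions of order `β`.

`f` is univalent in the unit disc, `f(0) = 0`, `f'(0) = 1`, `F` is its inverse. `f` is close-to-convex of order `β > 0` if there is a convex
function `g` such that `f'/g'` has a logarithm `ℓ` with `|Im ℓ| ≤ β π / 2`; `β = 1` is the class of
close-to-convex functions (Kaplan), which contains the convex and the starlike functions.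

On every line `{a + t u}`, `|u| = 1`, and for every `1 ≤ p < 1 + 1 / β`, the integral of `|F'|^p` over the part of the line in `f(𝔻)` is
bounded by a constant `C(β, p)`; at the endpoint `F'` is in weak `L^{1 + 1/β}` of the line. The line `a = 0`, `u = 1` gives `I_p(f)`. For
`β = 1` the range is `1 ≤ p < 2`.
-/

set_option autoImplicit false

open Metric Set MeasureTheory
open scoped ENNReal

namespace Pool.Agent.Results.MP_215299_an.CloseToConvex

/-- `g` is a convex function in the unit disc: `g` is holomorphic, `g' ≠ 0` and `Re (1 + z g''(z) / g'(z)) > 0`. -/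
structure ConvexFn (g : ℂ → ℂ) : Prop where
  diff : DifferentiableOn ℂ g (ball 0 1)
  ne : ∀ z ∈ ball (0 : ℂ) 1, deriv g z ≠ 0
  re : ∀ z ∈ ball (0 : ℂ) 1, 0 < (1 + z * deriv (deriv g) z / deriv g z).re

/-- `f` is univalent in the unit disc, `f(0) = 0`, `f'(0) = 1`, and close-to-convex of order `β`: there are a convex
function `g` and a holomorphic `ℓ` with `f' = g' e^ℓ` and `|Im ℓ| ≤ β π / 2` in the disc. -/
structure CloseToConvexFn (β : ℝ) (f : ℂ → ℂ) : Prop where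
  diff : DifferentiableOn ℂ f (ball 0 1)
  inj : InjOn f (ball 0 1)
  zero : f 0 = 0
  one : deriv f 0 = 1
  ex : ∃ g ℓ : ℂ → ℂ, ConvexFn g ∧ DifferentiableOn ℂ ℓ (ball 0 1) ∧
    ∀ z ∈ ball (0 : ℂ) 1, deriv f z = deriv g z * Complex.exp (ℓ z) ∧ |(ℓ z).im| ≤ β * Real.pi / 2

private theorem qm {β : ℝ} (hβ : 0 < β) {f : ℂ → ℂ} (hf : CloseToConvexFn β f) :
    ∃ (q : ℂ → ℂ) (M : ℝ), Pool.Agent.H.MP_215299_an.CC.Qm f q β M ∧
      ‖q 0‖ * M ^ (1 / β) = (4 : ℝ) ^ (1 / β) := by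
  obtain ⟨g, ℓ, hg, hℓ, h⟩ := hf.ex
  have hg' : Pool.Agent.H.MP_215299_an.CC.Cvx g := ⟨hg.diff, hg.ne, hg.re⟩
  obtain ⟨q, M, hq, e⟩ := hg'.qm hβ hℓ (fun z hz => (h z hz).1) (fun z hz => (h z hz).2)
  refine ⟨q, M, hq, ?_⟩
  rw [e, hf.one, norm_one, div_one]

theorem result (β : ℝ) (hβ : 0 < β) :
    (∀ p : ℝ, 1 ≤ p → p < 1 + 1 / β → ∃ C : ℝ≥0∞, C < ⊤ ∧
      ∀ f F : ℂ → ℂ, CloseToConvexFn β f → (∀ z ∈ ball (0 : ℂ) 1, F (f z) = z) →
        ∀ a u : ℂ, ‖u‖ = 1 →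
          ∫⁻ t in {t : ℝ | a + t * u ∈ f '' ball 0 1},
            ENNReal.ofReal (‖deriv F (a + t * u)‖ ^ p) ≤ C) ∧
    ∀ f F : ℂ → ℂ, CloseToConvexFn β f → (∀ z ∈ ball (0 : ℂ) 1, F (f z) = z) →
      ∀ a u : ℂ, ‖u‖ = 1 → ∀ s : ℝ, 0 < s →
        volume {t : ℝ | a + t * u ∈ f '' ball 0 1 ∧ s ≤ ‖deriv F (a + t * u)‖} ≤
          ENNReal.ofReal (800000 * 4 ^ (1 / β) * s ^ (-(1 + 1 / β))) := by
  refine ⟨fun p hp hp2 => ?_, ?_⟩
  · obtain ⟨C, hC, h⟩ := Pool.Agent.H.MP_215299_an.CC.sum_lines (A := (4 : ℝ) ^ (1 / β)) hβ hp hp2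
      (by positivity)
    refine ⟨C, hC, fun f F hf hF a u hu => ?_⟩
    obtain ⟨q, M, hq, e⟩ := qm hβ hf
    exact h f F q M ⟨hf.diff, hf.inj, hF⟩ hq e.le a u hu
  · intro f F hf hF a u hu s hs
    obtain ⟨q, M, hq, e⟩ := qm hβ hf
    have h := Pool.Agent.H.MP_215299_an.CC.wk_lines ⟨hf.diff, hf.inj, hF⟩ hq hβ (a := a) hu hs
    rw [e] at h
    exact h

end Pool.Agent.Results.MP_215299_an.CloseToConvex
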