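import Pool.Agent.H.MP_215299_an.KE.MainG
import Pool.Agent.H.MP_215299_an.KE.MainB

/-!
MP_215299_an: the lines for which the integral `I_p` diverges.

`f` is univalent in the unit disc, `f(0) = 0`, `f'(0) = 1`, `F` is its inverse. For `1 < p < (7 + √7) / 3` put
`s*(p) = p - 7/8 - √(16 p² - 16 p + 1) / 8`, the smaller root of `4 s² - (8 p - 7) s + 3 (p - 1)² = 0`. Among the lines
through a point `a` which is not on the boundary of `f(𝔻)`, and among the lines parallel to a given direction, those lines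
`L` for which the integral of `|F'|^p` over `L ∩ f(𝔻)` is infinite form a set of Hausdorff dimension at most `s*(p)`.
-/

set_option autoImplicit false

open Complex Metric Set MeasureTheory
open scoped ENNReal

namespace Pool.Agent.Results.MP_215299_an.ExceptionalLines

open Pool.Agent.H.MP_215299_an.KE in
theorem result (f F : ℂ → ℂ) (hd : DifferentiableOn ℂ f (ball 0 1)) (hi : InjOn f (ball 0 1))
    (h0 : f 0 = 0) (h1 : deriv f 0 = 1) (hF : ∀ z ∈ ball (0 : ℂ) 1, F (f z) = z)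
    (p : ℝ) (hp : 1 < p) (hp2 : p < (7 + √7) / 3) :
    (∀ a : ℂ, a ∉ frontier (f '' ball 0 1) →
      dimH {θ : ℝ | ∫⁻ t in {t : ℝ | a + t * exp (θ * I) ∈ f '' ball 0 1},
          ENNReal.ofReal (‖deriv F (a + t * exp (θ * I))‖ ^ p) = ⊤} ≤
        ENNReal.ofReal (p - 7 / 8 - √(16 * p ^ 2 - 16 * p + 1) / 8)) ∧
    ∀ τ : ℝ,
      dimH {y : ℝ | ∫⁻ t in {t : ℝ | (y * I + t) * exp (τ * I) ∈ f '' ball 0 1},
          ENNReal.ofReal (‖deriv F ((y * I + t) * exp (τ * I))‖ ^ p) = ⊤} ≤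
        ENNReal.ofReal (p - 7 / 8 - √(16 * p ^ 2 - 16 * p + 1) / 8) := by
  refine ⟨fun a ha => pencil ⟨hd, hi, h0, h1⟩ hF hp hp2 ha, fun τ => ?_⟩
  have key := par ⟨hd, hi, h0, h1⟩ hF hp hp2 τ
  have e : ∀ y t : ℝ, ((y : ℂ) * I + t) * exp (τ * I) =
      y * I * exp (τ * I) + t * exp (τ * I) := fun y t => by ring
  simp only [e]
  exact key

end Pool.Agent.Results.MP_215299_an.ExceptionalLines
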