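import Pool.Agent.H.MP_215299_an.RC.Main

/-!
# MP_215299_an: univalent functions with real coefficients, the sharp bounds

For a univalent function `f` in the unit disc, `f(0) = 0`, `f'(0) = 1`, with real Taylor coefficients, and its inverse `F`, let `I_p(f)` be the integral of `|F'|^p` over the
real points of the image. For `1 ≤ p ≤ 3 / 2` the largest value of `I_p` is attained for `z / (1 + z^2)`, for `3 / 2 ≤ p < 2` it is attained for the Koebe
function `z / (1 - z)^2`.
-/

set_option autoImplicit false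

open Metric Set MeasureTheory
open scoped ENNReal

namespace Pool.Agent.Results.MP_215299_an.RealCoefficients

/-- `f` is univalent in the unit disc, `f(0) = 0`, `f'(0) = 1`, and `f` is real on the real diameter, i.e.
its Taylor coefficients are real. -/
structure RealUnivalent (f : ℂ → ℂ) : Prop where
  diff : DifferentiableOn ℂ f (ball 0 1)
  inj : InjOn f (ball 0 1)
  zero : f 0 = 0
  one : deriv f 0 = 1
  real : ∀ x : ℝ, |x| < 1 → (f x).im = 0

/-- The integral of `|F'|^p` over the real points of the image of the unit disc, where `F` is the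
inverse of `f`. -/
noncomputable def I (p : ℝ) (f : ℂ → ℂ) : ℝ≥0∞ :=
  ∫⁻ x in {x : ℝ | (x : ℂ) ∈ f '' ball (0 : ℂ) 1},
    ENNReal.ofReal (‖deriv (Function.invFunOn f (ball 0 1)) (x : ℂ)‖ ^ p)

/-- The function `z / (1 + z^2)`. -/
noncomputable def slits (z : ℂ) : ℂ := z / (1 + z ^ 2)

/-- The Koebe function `z / (1 - z)^2`. -/
noncomputable def koebe (z : ℂ) : ℂ := z / (1 - z) ^ 2

private theorem ru {f : ℂ → ℂ} (h : RealUnivalent f) : H.MP_215299_an.RC.RU f :=
  ⟨h.diff, h.inj, h.zero, h.one, h.real⟩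

private theorem of_ru {f : ℂ → ℂ} (h : H.MP_215299_an.RC.RU f) : RealUnivalent f :=
  ⟨h.diff, h.inj, h.zero, h.one, h.real⟩

private theorem inv {f : ℂ → ℂ} (h : InjOn f (ball (0 : ℂ) 1)) :
    ∀ z ∈ ball (0 : ℂ) 1, Function.invFunOn f (ball (0 : ℂ) 1) (f z) = z := fun _ hz =>
  h.leftInvOn_invFunOn hz

/-- **The sharp bounds for real coefficients.** Both functions are univalent with real
coefficients. For `1 ≤ p ≤ 3 / 2` the integral `I p f` of every univalent `f` with real coefficients is at most the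
one of `z / (1 + z^2)`, for `3 / 2 ≤ p < 2` it is at most the one of the Koebe function; these bounds are
finite. -/
theorem result :
    RealUnivalent slits ∧ RealUnivalent koebe ∧
    (∀ p : ℝ, 1 ≤ p → p ≤ 3 / 2 →
      I p slits < ⊤ ∧ ∀ f : ℂ → ℂ, RealUnivalent f → I p f ≤ I p slits) ∧
    ∀ p : ℝ, 3 / 2 ≤ p → p < 2 →
      I p koebe < ⊤ ∧ ∀ f : ℂ → ℂ, RealUnivalent f → I p f ≤ I p koebe := by
  have h1 : RealUnivalent slits := of_ru H.MP_215299_an.RC.ru_hf
  have h2 : RealUnivalent koebe := of_ru H.MP_215299_an.RC.ru_kf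
  refine ⟨h1, h2, fun p hp hp2 => ⟨?_, fun f hf => ?_⟩, fun p hp hp2 => ⟨?_, fun f hf => ?_⟩⟩
  · exact H.MP_215299_an.RC.main_fin_h (inv h1.inj) hp (by linarith)
  · exact H.MP_215299_an.RC.main_h (ru hf) (inv hf.inj) (inv h1.inj) hp hp2
  · exact H.MP_215299_an.RC.main_fin_k (inv h2.inj) (by linarith) hp2
  · exact H.MP_215299_an.RC.main_k (ru hf) (inv hf.inj) (inv h2.inj) hp

end Pool.Agent.Results.MP_215299_an.RealCoefficients
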