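import Pool.Agent.H.MP_215299_an.CC.QF
import Pool.Agent.H.MP_215299_an.CC.QI

/-!
MP_215299_an: spirallike functions.

`f` is univalent in the unit disc, `f(0) = 0`, `f'(0) = 1`, `F` is its inverse, and `f` is strongly spirallike of order `β`, `0 < β ≤ 1`: for some
real `τ`, `|τ| < π / 2`, one has `|arg (e^{iτ} z f'(z) / f(z))| ≤ β π / 2`; `β = 1` are the spirallike functions, `τ = 0` the (strongly) starlike ones.
Then on every line the integral of `|F'|^p`, `1 ≤ p < 1 + 1 / β`, over the part of the line in `f(𝔻)` is bounded by a constant `C(β, p)`, and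
`F'` is in weak `L^{1 + 1/β}` of the line. The line `a = 0`, `u = 1` gives `I_p(f)`; for `β = 1` the range is `1 ≤ p < 2`.
-/

set_option autoImplicit false

open Metric Set MeasureTheory
open scoped ENNReal

namespace Pool.Agent.Results.MP_215299_an.Spirallike

/-- `f` is univalent in the unit disc, `f(0) = 0`, `f'(0) = 1`, and strongly spirallike of order `β`:
`|arg (e^{iτ} z f'(z) / f(z))| ≤ β π / 2` for `z ≠ 0`, with a real `τ`, `|τ| < π / 2`. -/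
structure SpirallikeFn (β : ℝ) (f : ℂ → ℂ) : Prop where
  diff : DifferentiableOn ℂ f (ball 0 1)
  inj : InjOn f (ball 0 1)
  zero : f 0 = 0
  one : deriv f 0 = 1
  ex : ∃ τ : ℝ, |τ| < Real.pi / 2 ∧ ∀ z ∈ ball (0 : ℂ) 1, z ≠ 0 →
    |(Complex.exp (τ * Complex.I) * (z * deriv f z / f z)).arg| ≤ β * Real.pi / 2

private theorem qm {β : ℝ} (hβ : 0 < β) (hβ1 : β ≤ 1) {f F : ℂ → ℂ} (hf : SpirallikeFn β f)
    (hF : ∀ z ∈ ball (0 : ℂ) 1, F (f z) = z) :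
    ∃ (q : ℂ → ℂ) (M : ℝ), Pool.Agent.H.MP_215299_an.CC.Qm f q β M ∧
      ‖q 0‖ * M ^ (1 / β) = (4 : ℝ) ^ (1 / β) := by
  obtain ⟨τ, hτ, h⟩ := hf.ex
  obtain ⟨q, M, hq, e⟩ := Pool.Agent.H.MP_215299_an.CC.Uni.strong ⟨hf.diff, hf.inj, hF⟩ hf.zero hβ hβ1 hτ h
  refine ⟨q, M, hq, ?_⟩
  rw [e, hf.one, norm_one, div_one]

theorem result (β : ℝ) (hβ : 0 < β) (hβ1 : β ≤ 1) :
    (∀ p : ℝ, 1 ≤ p → p < 1 + 1 / β → ∃ C : ℝ≥0∞, C < ⊤ ∧
      ∀ f F : ℂ → ℂ, SpirallikeFn β f → (∀ z ∈ ball (0 : ℂ) 1, F (f z) = z) →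
        ∀ a u : ℂ, ‖u‖ = 1 →
          ∫⁻ t in {t : ℝ | a + t * u ∈ f '' ball 0 1},
            ENNReal.ofReal (‖deriv F (a + t * u)‖ ^ p) ≤ C) ∧
    ∀ f F : ℂ → ℂ, SpirallikeFn β f → (∀ z ∈ ball (0 : ℂ) 1, F (f z) = z) →
      ∀ a u : ℂ, ‖u‖ = 1 → ∀ s : ℝ, 0 < s →
        volume {t : ℝ | a + t * u ∈ f '' ball 0 1 ∧ s ≤ ‖deriv F (a + t * u)‖} ≤
          ENNReal.ofReal (800000 * 4 ^ (1 / β) * s ^ (-(1 + 1 / β))) := by
  refine ⟨fun p hp hp2 => ?_, ?_⟩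
  · obtain ⟨C, hC, h⟩ := Pool.Agent.H.MP_215299_an.CC.sum_lines (A := (4 : ℝ) ^ (1 / β)) hβ hp hp2
      (by positivity)
    refine ⟨C, hC, fun f F hf hF a u hu => ?_⟩
    obtain ⟨q, M, hq, e⟩ := qm hβ hβ1 hf hF
    exact h f F q M ⟨hf.diff, hf.inj, hF⟩ hq e.le a u hu
  · intro f F hf hF a u hu s hs
    obtain ⟨q, M, hq, e⟩ := qm hβ hβ1 hf hF
    have h := Pool.Agent.H.MP_215299_an.CC.wk_lines ⟨hf.diff, hf.inj, hF⟩ hq hβ (a := a) hu hs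
    rw [e] at h
    exact h

end Pool.Agent.Results.MP_215299_an.Spirallike
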